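import Mathlib

set_option autoImplicit false

open Matrix

open scoped MatrixGroups

universe u

namespace Pool.Agent.Results.MP_5bb224_al.IntersectionProperty

section Fields

variable {K : Type u} [Field K] {p : ℕ}

lemma iterate_pow (p : ℕ) (x : K) (n : ℕ) : (fun y : K => y ^ p)^[n] x = x ^ (p ^ n) := by
  induction n with
  | zero => simp
  | succ n ih =>
    rw [Function.iterate_succ_apply', ih, ← pow_mul, pow_succ]

lemma pow_p_of_pow {e₁ e₂ : ℕ} (hc : Nat.Coprime e₁ e₂) {x : K}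
    (h₁ : x ^ (p ^ e₁) = x) (h₂ : x ^ (p ^ e₂) = x) : x ^ p = x := by
  have key : ∀ (e : ℕ), x ^ (p ^ e) = x →
      Function.IsPeriodicPt (fun y : K => y ^ p) e x := by
    intro e h'
    unfold Function.IsPeriodicPt Function.IsFixedPt
    rw [iterate_pow, h']
  have := (key e₁ h₁).gcd (key e₂ h₂)
  rw [hc.gcd_eq_one] at this
  simpa [Function.IsPeriodicPt, Function.IsFixedPt] using this

lemma pow_of_mem (hp : p.Prime) {e : ℕ} {F : Subfield K}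
    (hF : Nat.card F = p ^ e) {x : K} (hx : x ∈ F) : x ^ (p ^ e) = x := by
  have : Finite F := Nat.finite_of_card_ne_zero (by rw [hF]; exact pow_ne_zero _ hp.ne_zero)
  have : Fintype F := Fintype.ofFinite F
  have h := FiniteField.pow_card (⟨x, hx⟩ : F)
  rw [← Nat.card_eq_fintype_card, hF] at h
  have := congrArg Subtype.val h
  simpa using this

/-- An element lying in two finite subfields of coprime degrees is in the prime field. -/
lemma pow_p_of_mem (hp : p.Prime) {e₁ e₂ : ℕ} (hc : Nat.Coprime e₁ e₂) {F₁ F₂ : Subfield K}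
    (h₁ : Nat.card F₁ = p ^ e₁) (h₂ : Nat.card F₂ = p ^ e₂) {x : K} (hx₁ : x ∈ F₁)
    (hx₂ : x ∈ F₂) : x ^ p = x :=
  pow_p_of_pow hc (pow_of_mem hp h₁ hx₁) (pow_of_mem hp h₂ hx₂)

lemma exists_nat_of_pow_eq [Fact p.Prime] [CharP K p] {x : K} (hx : x ^ p = x) :
    ∃ n : ℕ, x = (n : K) := by
  have h : x ∈ (⊥ : Subfield K) := (Subfield.mem_bot_iff_pow_eq_self K p).2 hx
  rw [← ZMod.fieldRange_castHom_eq_bot p] at h
  obtain ⟨z, rfl⟩ := h
  refine ⟨z.val, ?_⟩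
  have : ((z.val : ℕ) : ZMod p) = z := by
    have : NeZero p := ⟨(Fact.out : p.Prime).ne_zero⟩
    exact ZMod.natCast_zmod_val z
  rw [← this]
  simp

/-- A primitive element `j` of the field with `p ^ e` elements, `e ≥ 3`, is such that
`(j + j⁻¹) ^ 2` is not in the prime field. -/
lemma trace_sq_not_prime (hp : p.Prime) (hp2 : p ≠ 2) [CharP K p] {e : ℕ} (he : 3 ≤ e) {j : K}
    (hj0 : j ≠ 0) (hj : ∀ n : ℕ, 0 < n → j ^ n = 1 → p ^ e - 1 ≤ n) :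
    ((j + j⁻¹) ^ 2) ^ p ≠ (j + j⁻¹) ^ 2 := by
  intro h
  have : Fact p.Prime := ⟨hp⟩
  have hp3 : 3 ≤ p := by
    have := hp.two_le
    omega
  have h1 : ((j + j⁻¹) ^ 2) ^ p = (j ^ p + (j ^ p)⁻¹) ^ 2 := by
    rw [← pow_mul, mul_comm, pow_mul, add_pow_char, inv_pow]
  rw [h1] at h
  have hjp : j ^ p ≠ 0 := pow_ne_zero _ hj0
  have h2 : ((j ^ p) ^ 2 - j ^ 2) * ((j ^ p) ^ 2 * j ^ 2 - 1) = 0 := by
    field_simp at h
    linear_combination h
  have hpe : p ^ 3 ≤ p ^ e := Nat.pow_le_pow_right hp.pos he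
  have hp27 : 9 * p ≤ p ^ 3 := by
    calc 9 * p = 3 * 3 * p := by ring
      _ ≤ p * p * p := Nat.mul_le_mul_right _ (Nat.mul_le_mul hp3 hp3)
      _ = p ^ 3 := by ring
  rcases mul_eq_zero.1 h2 with h3 | h3
  · have h4 : j ^ (2 * (p - 1)) = 1 := by
      have h5 : j ^ (2 * (p - 1)) * j ^ 2 = j ^ 2 := by
        rw [← pow_add]
        have : 2 * (p - 1) + 2 = p * 2 := by omega
        rw [this, pow_mul]
        linear_combination h3
      exact mul_right_cancel₀ (pow_ne_zero 2 hj0) (by rw [h5, one_mul])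
    have := hj _ (by omega) h4
    omega
  · have h4 : j ^ (2 * (p + 1)) = 1 := by
      have : 2 * (p + 1) = p * 2 + 2 := by ring
      rw [this, pow_add, pow_mul]
      linear_combination h3
    have := hj _ (by omega) h4
    omega

lemma order_of_gen (hp : p.Prime) {e : ℕ} {F : Subfield K} (hF : Nat.card F = p ^ e)
    (j : Fˣ) (hj : ∀ y : Fˣ, y ∈ Subgroup.zpowers j) (n : ℕ) (hn : 0 < n)
    (hjn : ((j : F) : K) ^ n = 1) : p ^ e - 1 ≤ n := by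
  have : Finite F := Nat.finite_of_card_ne_zero (by rw [hF]; exact pow_ne_zero _ hp.ne_zero)
  have h1 : orderOf j = Nat.card Fˣ := orderOf_eq_card_of_forall_mem_zpowers hj
  have h2 : Nat.card Fˣ = Nat.card F - 1 := by
    have := Fintype.ofFinite F
    classical
    rw [Nat.card_eq_fintype_card, Nat.card_eq_fintype_card, Fintype.card_units]
  rw [h2, hF] at h1
  rw [← h1]
  apply Nat.le_of_dvd hn
  apply orderOf_dvd_of_pow_eq_one
  ext
  simpa using hjn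

lemma sum_ne (hp : p.Prime) (hp2 : p ≠ 2) [CharP K p] {e₁ e₂ : ℕ} (hc : Nat.Coprime e₁ e₂)
    {F₁ F₂ : Subfield K}
    (h₁ : Nat.card F₁ = p ^ e₁) (h₂ : Nat.card F₂ = p ^ e₂) {A B g : K} (hA : A ∈ F₁)
    (hB : B ∈ F₂) (hA' : A ^ p ≠ A) (hB' : B ^ p ≠ B) (hg : g ^ 2 = 1 - A - B) {u v : K}
    (hu : u ∈ F₁) (hv : v ∈ F₂) : g ≠ u + v := by
  rintro rfl
  have : Fact p.Prime := ⟨hp⟩
  have h2 : (2 : K) ≠ 0 := by
    intro h
    have : ((2 : ℕ) : K) = 0 := by exact_mod_cast h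
    rw [CharP.cast_eq_zero_iff K p] at this
    exact hp2 ((Nat.prime_dvd_prime_iff_eq hp Nat.prime_two).1 this)
  have hfrob := congrArg (iterateFrobenius K p e₁) hg
  simp only [map_pow, map_add, map_sub, map_one] at hfrob
  have hfu : iterateFrobenius K p e₁ u = u := by
    rw [iterateFrobenius_def]; exact pow_of_mem hp h₁ hu
  have hfA : iterateFrobenius K p e₁ A = A := by
    rw [iterateFrobenius_def]; exact pow_of_mem hp h₁ hA
  have hfv : iterateFrobenius K p e₁ v ∈ F₂ := by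
    rw [iterateFrobenius_def]; exact pow_mem hv _
  have hfB : iterateFrobenius K p e₁ B ∈ F₂ := by
    rw [iterateFrobenius_def]; exact pow_mem hB _
  rw [hfu, hfA] at hfrob
  by_cases hvv : iterateFrobenius K p e₁ v = v
  · rw [hvv] at hfrob
    have : iterateFrobenius K p e₁ B = B := by linear_combination hfrob - hg
    rw [iterateFrobenius_def] at this
    exact hB' (pow_p_of_pow hc this (pow_of_mem hp h₂ hB))
  · set v' := iterateFrobenius K p e₁ v with hv'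
    set B' := iterateFrobenius K p e₁ B with hB''
    have hne : v - v' ≠ 0 := fun h => hvv (by linear_combination -h)
    have hu2 : u = (B' - B - v ^ 2 + v' ^ 2) / (2 * (v - v')) := by
      rw [eq_div_iff (mul_ne_zero h2 hne)]
      linear_combination hg - hfrob
    have h2m : (2 : K) ∈ F₂ := by
      have := natCast_mem F₂ 2
      exact_mod_cast this
    have hu3 : u ∈ F₂ := by
      rw [hu2]
      exact F₂.div_mem (F₂.add_mem (F₂.sub_mem (F₂.sub_mem hfB hB) (pow_mem hv 2)) (pow_mem hfv 2))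
        (F₂.mul_mem h2m (F₂.sub_mem hv hfv))
    have hA2 : A = 1 - B - (u + v) ^ 2 := by linear_combination hg
    have hA3 : A ∈ F₂ := by
      rw [hA2]
      exact F₂.sub_mem (F₂.sub_mem F₂.one_mem hB) (pow_mem (F₂.add_mem hu3 hv) 2)
    exact hA' (pow_p_of_mem hp hc h₁ h₂ hA hA3)

end Fields

section Matrices

variable {K : Type u} [Field K] {p : ℕ}

/-- The matrix `σ₁`. -/
def M₁ (ω₁ : K) : Matrix (Fin 2) (Fin 2) K :=
  !![ω₁ / 2, (ω₁ + 2) / 2; (ω₁ - 2) / 2, ω₁ / 2]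

/-- The matrix `σ₂`. -/
def M₂ (ω₁ : K) : Matrix (Fin 2) (Fin 2) K :=
  !![(2 + ω₁) / 2, ω₁ / 2; -ω₁ / 2, (2 - ω₁) / 2]

/-- The matrix `σ₃`, where `s` is a square root of `Ω`. -/
def M₃ (ω₁ ω₂ s : K) : Matrix (Fin 2) (Fin 2) K :=
  !![ω₂ / (2 * ω₁) * (ω₁ - 2), s / (2 * ω₁); s / (2 * ω₁), ω₂ / (2 * ω₁) * (ω₁ + 2)]

lemma det_M₁ (h2 : (2 : K) ≠ 0) (ω₁ : K) : (M₁ ω₁).det = 1 := by
  simp only [M₁, Matrix.det_fin_two_of]
  field_simp
  ring

lemma det_M₂ (h2 : (2 : K) ≠ 0) (ω₁ : K) : (M₂ ω₁).det = 1 := by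
  simp only [M₂, Matrix.det_fin_two_of]
  field_simp
  ring

lemma det_M₃ (h2 : (2 : K) ≠ 0) {ω₁ ω₂ s : K} (h : ω₁ ≠ 0)
    (hs : s ^ 2 = ω₁ ^ 2 * ω₂ ^ 2 - 4 * (ω₁ ^ 2 + ω₂ ^ 2)) : (M₃ ω₁ ω₂ s).det = 1 := by
  simp only [M₃, Matrix.det_fin_two_of]
  field_simp
  linear_combination -hs

/-- The first conjugating matrix. -/
def T₁ (ω₁ : K) : Matrix (Fin 2) (Fin 2) K := !![ω₁ / 2, 0; -ω₁ / 2, 1]

/-- The unipotent part of the second conjugating matrix. -/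
def U (β : K) : Matrix (Fin 2) (Fin 2) K := !![1, β; 0, 1]

lemma conj₁ (h2 : (2 : K) ≠ 0) {ω₁ : K} (h : ω₁ ≠ 0) :
    M₁ ω₁ * T₁ ω₁ = T₁ ω₁ * !![-1, (ω₁ + 2) / ω₁; -ω₁, ω₁ + 1] := by
  ext i j
  fin_cases i <;> fin_cases j <;>
    simp [M₁, T₁, Matrix.mul_apply, Fin.sum_univ_two] <;> field_simp <;> ring

lemma conj₂ (h2 : (2 : K) ≠ 0) (ω₁ : K) :
    M₂ ω₁ * T₁ ω₁ = T₁ ω₁ * !![1, 1; 0, 1] := by
  ext i j
  fin_cases i <;> fin_cases j <;>
    simp [M₂, T₁, Matrix.mul_apply, Fin.sum_univ_two] <;> field_simp <;> ring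

lemma conj₂' (h2 : (2 : K) ≠ 0) (ω₁ β : K) :
    M₂ ω₁ * (T₁ ω₁ * U β) = (T₁ ω₁ * U β) * !![1, 1; 0, 1] := by
  rw [← Matrix.mul_assoc, conj₂ h2, Matrix.mul_assoc, Matrix.mul_assoc]
  congr 1
  ext i j
  fin_cases i <;> fin_cases j <;>
    simp [U, Matrix.mul_apply, Fin.sum_univ_two] <;> ring

lemma conj₃ (h2 : (2 : K) ≠ 0) {ω₁ ω₂ s : K} (h : ω₁ ≠ 0) (h' : ω₂ ≠ 0)
    (hs : s ^ 2 = ω₁ ^ 2 * ω₂ ^ 2 - 4 * (ω₁ ^ 2 + ω₂ ^ 2)) :
    M₃ ω₁ ω₂ s * (T₁ ω₁ * U (s / (2 * ω₁ * ω₂) - 1 / 2 + 1 / ω₁)) =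
      (T₁ ω₁ * U (s / (2 * ω₁ * ω₂) - 1 / 2 + 1 / ω₁)) * !![0, 1 / ω₂; -ω₂, ω₂] := by
  ext i j
  fin_cases i <;> fin_cases j <;>
    simp [M₃, T₁, U, Matrix.mul_apply, Fin.sum_univ_two] <;> field_simp <;> ring_nf
  · linear_combination -hs
  · linear_combination hs

/-- The conjugation predicate. -/
def Conj (T : Matrix (Fin 2) (Fin 2) K) (F : Subfield K) (g : Matrix (Fin 2) (Fin 2) K) : Prop :=
  ∃ a ∈ F, ∃ b ∈ F, ∃ c ∈ F, ∃ d ∈ F, a * d - b * c = 1 ∧ g * T = T * !![a, b; c, d]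

lemma conj_closure (T : Matrix (Fin 2) (Fin 2) K) (F : Subfield K) (S : Set SL(2, K))
    (h : ∀ g ∈ S, Conj T F (g : Matrix (Fin 2) (Fin 2) K)) (g : SL(2, K))
    (hg : g ∈ Subgroup.closure S) : Conj T F (g : Matrix (Fin 2) (Fin 2) K) := by
  induction hg using Subgroup.closure_induction with
  | mem x hx => exact h x hx
  | one =>
    refine ⟨1, F.one_mem, 0, F.zero_mem, 0, F.zero_mem, 1, F.one_mem, by ring, ?_⟩
    have : (!![1, 0; 0, 1] : Matrix (Fin 2) (Fin 2) K) = 1 := by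
      ext i j; fin_cases i <;> fin_cases j <;> simp
    rw [this]
    simp
  | mul x y hx hy ihx ihy =>
    obtain ⟨a, ha, b, hb, c, hc, d, hd, hdet, hx⟩ := ihx
    obtain ⟨a', ha', b', hb', c', hc', d', hd', hdet', hy⟩ := ihy
    refine ⟨a * a' + b * c', F.add_mem (F.mul_mem ha ha') (F.mul_mem hb hc'),
      a * b' + b * d', F.add_mem (F.mul_mem ha hb') (F.mul_mem hb hd'),
      c * a' + d * c', F.add_mem (F.mul_mem hc ha') (F.mul_mem hd hc'),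
      c * b' + d * d', F.add_mem (F.mul_mem hc hb') (F.mul_mem hd hd'), ?_, ?_⟩
    · linear_combination (a' * d' - b' * c') * hdet + hdet'
    · rw [Matrix.SpecialLinearGroup.coe_mul, Matrix.mul_assoc, hy, ← Matrix.mul_assoc, hx,
        Matrix.mul_assoc]
      congr 1
      ext i j
      fin_cases i <;> fin_cases j <;> simp [Matrix.mul_apply, Fin.sum_univ_two]
  | inv x hx ih =>
    obtain ⟨a, ha, b, hb, c, hc, d, hd, hdet, hx⟩ := ih
    refine ⟨d, hd, -b, F.neg_mem hb, -c, F.neg_mem hc, a, ha, by linear_combination hdet, ?_⟩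
    have h1 : (x : Matrix (Fin 2) (Fin 2) K) * (T * !![d, -b; -c, a]) = T := by
      rw [← Matrix.mul_assoc, hx, Matrix.mul_assoc]
      have : (!![a, b; c, d] * !![d, -b; -c, a] : Matrix (Fin 2) (Fin 2) K) = 1 := by
        ext i j
        fin_cases i <;> fin_cases j <;> simp [Matrix.mul_apply, Fin.sum_univ_two]
        · linear_combination hdet
        · ring
        · ring
        · linear_combination hdet
      rw [this, Matrix.mul_one]
    have h2 : ((x⁻¹ : SL(2, K)) : Matrix (Fin 2) (Fin 2) K) * (x : Matrix (Fin 2) (Fin 2) K) = 1 := by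
      rw [← Matrix.SpecialLinearGroup.coe_mul, inv_mul_cancel, Matrix.SpecialLinearGroup.coe_one]
    calc ((x⁻¹ : SL(2, K)) : Matrix (Fin 2) (Fin 2) K) * T
        = ((x⁻¹ : SL(2, K)) : Matrix (Fin 2) (Fin 2) K) *
          ((x : Matrix (Fin 2) (Fin 2) K) * (T * !![d, -b; -c, a])) := by rw [h1]
      _ = T * !![d, -b; -c, a] := by rw [← Matrix.mul_assoc, h2, Matrix.one_mul]

lemma M₂_pow (h2 : (2 : K) ≠ 0) (ω₁ : K) (k : ℕ) :
    M₂ ω₁ ^ k * T₁ ω₁ = T₁ ω₁ * !![1, (k : K); 0, 1] := by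
  induction k with
  | zero =>
    have : (!![1, ((0 : ℕ) : K); 0, 1] : Matrix (Fin 2) (Fin 2) K) = 1 := by
      ext i j; fin_cases i <;> fin_cases j <;> simp
    rw [this]
    simp
  | succ k ih =>
    rw [pow_succ, Matrix.mul_assoc, conj₂ h2, ← Matrix.mul_assoc, ih, Matrix.mul_assoc]
    congr 1
    ext i j
    fin_cases i <;> fin_cases j <;> simp [Matrix.mul_apply, Fin.sum_univ_two]
    ring

lemma T₁_unit (h2 : (2 : K) ≠ 0) {ω₁ : K} (h : ω₁ ≠ 0) : IsUnit (T₁ ω₁) := by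
  rw [Matrix.isUnit_iff_isUnit_det]
  simp only [T₁, Matrix.det_fin_two_of]
  rw [isUnit_iff_ne_zero, mul_one, zero_mul, sub_zero]
  exact div_ne_zero h h2

/-- The comparison of an element of the first subgroup and an element of the second. -/
lemma compare (hp : p.Prime) [CharP K p] {e₁ e₂ : ℕ} (hc : Nat.Coprime e₁ e₂)
    {F₁ F₂ : Subfield K} (h₁ : Nat.card F₁ = p ^ e₁) (h₂ : Nat.card F₂ = p ^ e₂)
    (h2 : (2 : K) ≠ 0) {ω₁ β : K} (hω : ω₁ ≠ 0)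
    (hβ : ∀ u ∈ F₁, ∀ v ∈ F₂, β ≠ u + v) {g h : Matrix (Fin 2) (Fin 2) K}
    (hg : Conj (T₁ ω₁) F₁ g) (hh : Conj (T₁ ω₁ * U β) F₂ h) {r : K} (hr : r ^ 2 = 1)
    (hgh : h = r • g) :
    ∃ k : ℕ, g = M₂ ω₁ ^ k ∨ g = - M₂ ω₁ ^ k := by
  have : Fact p.Prime := ⟨hp⟩
  obtain ⟨a, ha, b, hb, c, hc', d, hd, hdet, hg⟩ := hg
  obtain ⟨a', ha', b', hb', c', hc'', d', hd', hdet', hh⟩ := hh
  have hr' : r = 1 ∨ r = -1 := by
    have : (r - 1) * (r + 1) = 0 := by linear_combination hr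
    rcases mul_eq_zero.1 this with h | h
    · left; linear_combination h
    · right; linear_combination h
  have hr0 : r ≠ 0 := by
    rcases hr' with h | h <;> rw [h] <;> simp
  have hrF : ∀ F : Subfield K, r ∈ F := by
    intro F
    rcases hr' with h | h <;> rw [h]
    · exact F.one_mem
    · exact F.neg_mem F.one_mem
  have hU := T₁_unit h2 hω
  have hm : r • (!![a, b; c, d] * U β) = U β * !![a', b'; c', d'] := by
    apply hU.mul_left_cancel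
    rw [hgh] at hh
    rw [Matrix.mul_smul, ← Matrix.mul_assoc, ← hg, ← Matrix.mul_assoc, ← hh, Matrix.smul_mul,
      Matrix.mul_assoc]
  have e00 := congrFun (congrFun hm 0) 0
  have e01 := congrFun (congrFun hm 0) 1
  have e10 := congrFun (congrFun hm 1) 0
  have e11 := congrFun (congrFun hm 1) 1
  simp [U, Matrix.mul_apply, Fin.sum_univ_two] at e00 e01 e10 e11
  have hc0 : c = 0 := by
    by_contra hc0
    have hc'0 : c' ≠ 0 := by rw [← e10]; exact mul_ne_zero hr0 hc0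
    apply hβ (a / c) (F₁.div_mem ha hc') (-(a' / c')) (F₂.neg_mem (F₂.div_mem ha' hc''))
    have : a / c = r * a / c' := by rw [← e10, mul_div_mul_left _ _ hr0]
    rw [this]
    field_simp
    linear_combination -e00
  have hc'0 : c' = 0 := by rw [← e10, hc0, mul_zero]
  rw [hc0] at e11 hdet
  rw [hc'0] at e00 hdet'
  have had : a = d := by
    by_contra had
    have h3 : a' - d' ≠ 0 := by
      intro h
      apply had
      have : r * (a - d) = 0 := by linear_combination e00 - e11 + h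
      rcases mul_eq_zero.1 this with h | h
      · exact absurd h hr0
      · linear_combination h
    have h4 : a - d ≠ 0 := sub_ne_zero.2 had
    apply hβ (-(b / (a - d))) (F₁.neg_mem (F₁.div_mem hb (F₁.sub_mem ha hd))) (b' / (a' - d'))
      (F₂.div_mem hb' (F₂.sub_mem ha' hd'))
    have h5 : a' - d' = r * (a - d) := by linear_combination -e00 + e11
    have h6 : b / (a - d) = r * b / (a' - d') := by rw [h5, mul_div_mul_left _ _ hr0]
    rw [h6]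
    field_simp
    linear_combination e01 - β * e00
  subst had
  subst hc0
  have ha1 : a = 1 ∨ a = -1 := by
    have : (a - 1) * (a + 1) = 0 := by linear_combination hdet
    rcases mul_eq_zero.1 this with h | h
    · left; linear_combination h
    · right; linear_combination h
  have hb2 : b ∈ F₂ := by
    have : b = r * b' := by
      linear_combination (-b) * hr + r * e01 - r * β * e11
    rw [this]
    exact F₂.mul_mem (hrF F₂) hb'
  obtain ⟨n, hn⟩ := exists_nat_of_pow_eq (pow_p_of_mem hp hc h₁ h₂ hb hb2)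
  obtain ⟨m, hm⟩ := exists_nat_of_pow_eq
    (pow_p_of_mem hp hc h₁ h₂ (F₁.neg_mem hb) (F₂.neg_mem hb2))
  rcases ha1 with ha1 | ha1
  · refine ⟨n, Or.inl ?_⟩
    apply hU.mul_right_cancel
    rw [hg, M₂_pow h2, ← hn, ha1]
  · refine ⟨m, Or.inr ?_⟩
    apply hU.mul_right_cancel
    rw [hg, Matrix.neg_mul, M₂_pow h2, ← hm, ha1, ← Matrix.mul_neg]
    congr 1
    ext i j
    fin_cases i <;> fin_cases j <;> simp

/-- The projection of `SL(2, K)` onto `PSL(2, K)`. -/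
def toPSL (K : Type u) [Field K] :
    SL(2, K) →* Matrix.ProjectiveSpecialLinearGroup (Fin 2) K :=
  QuotientGroup.mk' (Subgroup.center SL(2, K))

/-- The intersection property `⟨a, b⟩ ∩ ⟨b, c⟩ = ⟨b⟩` in `PSL(2, K)`, for the images in
`PSL(2, K)` of matrices `a`, `b`, `c` of determinant one. -/
def HasIntersectionProperty (a b c : SL(2, K)) : Prop :=
  Subgroup.closure {toPSL K a, toPSL K b} ⊓ Subgroup.closure {toPSL K b, toPSL K c} =
    Subgroup.zpowers (toPSL K b)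

lemma toPSL_eq {g h : SL(2, K)} (hgh : toPSL K g = toPSL K h) :
    ∃ r : K, r ^ 2 = 1 ∧ (h : Matrix (Fin 2) (Fin 2) K) = r • (g : Matrix (Fin 2) (Fin 2) K) := by
  have h1 : g⁻¹ * h ∈ Subgroup.center SL(2, K) := QuotientGroup.eq.1 hgh
  obtain ⟨r, hr, hs⟩ := Matrix.SpecialLinearGroup.mem_center_iff.1 h1
  refine ⟨r, by simpa using hr, ?_⟩
  have h2 : h = g * (g⁻¹ * h) := by group
  rw [h2, Matrix.SpecialLinearGroup.coe_mul, ← hs]
  ext i j
  simp [Matrix.scalar_apply, Matrix.mul_diagonal, mul_comm]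

lemma toPSL_neg {g h : SL(2, K)} (hgh : (g : Matrix (Fin 2) (Fin 2) K) = - h) :
    toPSL K g = toPSL K h := by
  apply QuotientGroup.eq.2
  rw [Matrix.SpecialLinearGroup.mem_center_iff]
  refine ⟨-1, by simp, ?_⟩
  rw [Matrix.SpecialLinearGroup.coe_mul]
  have h1 : (h : Matrix (Fin 2) (Fin 2) K) = - g := by rw [hgh, neg_neg]
  have h2 : ((g⁻¹ : SL(2, K)) : Matrix (Fin 2) (Fin 2) K) * (g : Matrix (Fin 2) (Fin 2) K) = 1 := by
    rw [← Matrix.SpecialLinearGroup.coe_mul, inv_mul_cancel, Matrix.SpecialLinearGroup.coe_one]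
  rw [h1, Matrix.mul_neg, h2]
  ext i j
  fin_cases i <;> fin_cases j <;> simp

lemma inter_aux (hp : p.Prime) [CharP K p] {e₁ e₂ : ℕ} (hc : Nat.Coprime e₁ e₂)
    {F₁ F₂ : Subfield K} (h₁ : Nat.card F₁ = p ^ e₁) (h₂ : Nat.card F₂ = p ^ e₂)
    (h2 : (2 : K) ≠ 0) {ω₁ ω₂ s : K} (hω₁F : ω₁ ∈ F₁) (hω₂F : ω₂ ∈ F₂)
    (hω₁0 : ω₁ ≠ 0) (hω₂0 : ω₂ ≠ 0) (m2 : ∀ F : Subfield K, (2 : K) ∈ F)
    (hs : s ^ 2 = ω₁ ^ 2 * ω₂ ^ 2 - 4 * (ω₁ ^ 2 + ω₂ ^ 2))
    (hβ : ∀ u ∈ F₁, ∀ v ∈ F₂, s / (2 * ω₁ * ω₂) - 1 / 2 + 1 / ω₁ ≠ u + v)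
    (a b c : SL(2, K)) (ha : (a : Matrix (Fin 2) (Fin 2) K) = M₁ ω₁)
    (hb : (b : Matrix (Fin 2) (Fin 2) K) = M₂ ω₁)
    (hcc : (c : Matrix (Fin 2) (Fin 2) K) = M₃ ω₁ ω₂ s) :
    HasIntersectionProperty a b c := by
  unfold HasIntersectionProperty
  apply le_antisymm
  · intro x hx
    obtain ⟨hx₁, hx₂⟩ := Subgroup.mem_inf.1 hx
    rw [← Set.image_pair, ← MonoidHom.map_closure] at hx₁ hx₂
    obtain ⟨g, hg, rfl⟩ := hx₁
    obtain ⟨h, hh, hgh⟩ := hx₂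
    have cg : Conj (T₁ ω₁) F₁ (g : Matrix (Fin 2) (Fin 2) K) := by
      apply conj_closure _ _ _ _ g hg
      rintro y (rfl | rfl)
      · rw [ha]
        refine ⟨-1, F₁.neg_mem F₁.one_mem, (ω₁ + 2) / ω₁, F₁.div_mem (F₁.add_mem hω₁F (m2 F₁)) hω₁F,
          -ω₁, F₁.neg_mem hω₁F, ω₁ + 1, F₁.add_mem hω₁F F₁.one_mem, ?_, conj₁ h2 hω₁0⟩
        field_simp
        ring
      · rw [hb]
        exact ⟨1, F₁.one_mem, 1, F₁.one_mem, 0, F₁.zero_mem, 1, F₁.one_mem, by ring, conj₂ h2 ω₁⟩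
    have ch : Conj (T₁ ω₁ * U (s / (2 * ω₁ * ω₂) - 1 / 2 + 1 / ω₁)) F₂
        (h : Matrix (Fin 2) (Fin 2) K) := by
      apply conj_closure _ _ _ _ h hh
      rintro y (rfl | rfl)
      · rw [hb]
        exact ⟨1, F₂.one_mem, 1, F₂.one_mem, 0, F₂.zero_mem, 1, F₂.one_mem, by ring,
          conj₂' h2 ω₁ _⟩
      · rw [hcc]
        refine ⟨0, F₂.zero_mem, 1 / ω₂, F₂.div_mem F₂.one_mem hω₂F,
          -ω₂, F₂.neg_mem hω₂F, ω₂, hω₂F, ?_, conj₃ h2 hω₁0 hω₂0 hs⟩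
        field_simp
        ring
    obtain ⟨r, hr, hrh⟩ := toPSL_eq hgh.symm
    obtain ⟨k, hk⟩ := compare hp hc h₁ h₂ h2 hω₁0 hβ cg ch hr hrh
    have hpow : ((b ^ k : SL(2, K)) : Matrix (Fin 2) (Fin 2) K) = M₂ ω₁ ^ k := by
      rw [Matrix.SpecialLinearGroup.coe_pow, hb]
    rw [Subgroup.mem_zpowers_iff]
    refine ⟨(k : ℤ), ?_⟩
    rw [zpow_natCast, ← map_pow]
    rcases hk with hk | hk
    · congr 1
      exact Subtype.ext (by rw [hpow, hk])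
    · apply (toPSL_neg _).symm
      rw [hpow, hk]
  · rw [Subgroup.zpowers_le]
    exact ⟨Subgroup.subset_closure (by simp), Subgroup.subset_closure (by simp)⟩

end Matrices

/-- **Intersection property.** -/
theorem result (p e₁ e₂ : ℕ) (hp : p.Prime) (hp2 : p ≠ 2) (he₁ : 1 < e₁) (he₂ : 1 < e₂)
    (ho₁ : Odd e₁) (ho₂ : Odd e₂) (hc : Nat.Coprime e₁ e₂)
    (K : Type u) [Field K] (hK : Nat.card K = p ^ (e₁ * e₂))
    (F₁ F₂ : Subfield K) (h₁ : Nat.card F₁ = p ^ e₁) (h₂ : Nat.card F₂ = p ^ e₂)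
    (j₁ : F₁ˣ) (hj₁ : ∀ y : F₁ˣ, y ∈ Subgroup.zpowers j₁)
    (j₂ : F₂ˣ) (hj₂ : ∀ y : F₂ˣ, y ∈ Subgroup.zpowers j₂)
    (ω₁ ω₂ s : K) (hω₁ : ω₁ = ((j₁ : F₁) : K) + ((j₁ : F₁) : K)⁻¹)
    (hω₂ : ω₂ = ((j₂ : F₂) : K) + ((j₂ : F₂) : K)⁻¹)
    (hs : s ^ 2 = ω₁ ^ 2 * ω₂ ^ 2 - 4 * (ω₁ ^ 2 + ω₂ ^ 2)) :
    ∃ (d₁ : (M₁ ω₁).det = 1) (d₂ : (M₂ ω₁).det = 1) (d₃ : (M₃ ω₁ ω₂ s).det = 1),
      HasIntersectionProperty ⟨M₁ ω₁, d₁⟩ ⟨M₂ ω₁, d₂⟩ ⟨M₃ ω₁ ω₂ s, d₃⟩ := by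
  have : Fact p.Prime := ⟨hp⟩
  have hfin : Finite K := Nat.finite_of_card_ne_zero (by rw [hK]; exact pow_ne_zero _ hp.ne_zero)
  have hchar : CharP K p := by
    have := Fintype.ofFinite K
    rw [Nat.card_eq_fintype_card] at hK
    exact charP_of_card_eq_prime_pow hK
  have h2 : (2 : K) ≠ 0 := by
    intro h
    have : ((2 : ℕ) : K) = 0 := by exact_mod_cast h
    rw [CharP.cast_eq_zero_iff K p] at this
    exact hp2 ((Nat.prime_dvd_prime_iff_eq hp Nat.prime_two).1 this)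
  have he₁3 : 3 ≤ e₁ := by
    obtain ⟨k, hk⟩ := ho₁
    omega
  have he₂3 : 3 ≤ e₂ := by
    obtain ⟨k, hk⟩ := ho₂
    omega
  have hj₁0 : ((j₁ : F₁) : K) ≠ 0 := by
    have := j₁.ne_zero
    exact fun h => this (Subtype.ext h)
  have hj₂0 : ((j₂ : F₂) : K) ≠ 0 := by
    have := j₂.ne_zero
    exact fun h => this (Subtype.ext h)
  have hj₁F : ((j₁ : F₁) : K) ∈ F₁ := (j₁ : F₁).2
  have hj₂F : ((j₂ : F₂) : K) ∈ F₂ := (j₂ : F₂).2
  have t₁ := trace_sq_not_prime hp hp2 he₁3 hj₁0 (order_of_gen hp h₁ j₁ hj₁)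
  have t₂ := trace_sq_not_prime hp hp2 he₂3 hj₂0 (order_of_gen hp h₂ j₂ hj₂)
  rw [← hω₁] at t₁
  rw [← hω₂] at t₂
  have hω₁F : ω₁ ∈ F₁ := by rw [hω₁]; exact F₁.add_mem hj₁F (F₁.inv_mem hj₁F)
  have hω₂F : ω₂ ∈ F₂ := by rw [hω₂]; exact F₂.add_mem hj₂F (F₂.inv_mem hj₂F)
  have hω₁0 : ω₁ ≠ 0 := by
    intro h
    apply t₁
    rw [h]
    simp [hp.ne_zero]
  have hω₂0 : ω₂ ≠ 0 := by
    intro h
    apply t₂
    rw [h]
    simp [hp.ne_zero]
  have h4 : (4 : K) ^ p = 4 := by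
    have m : ∀ F : Subfield K, (4 : K) ∈ F := by
      intro F
      have := natCast_mem F 4
      exact_mod_cast this
    exact pow_p_of_mem hp hc h₁ h₂ (m F₁) (m F₂)
  have h40 : (4 : K) ≠ 0 := by
    have : (4 : K) = 2 * 2 := by norm_num
    rw [this]
    exact mul_ne_zero h2 h2
  have m4 : ∀ F : Subfield K, (4 : K) ∈ F := by
    intro F
    have := natCast_mem F 4
    exact_mod_cast this
  have m2 : ∀ F : Subfield K, (2 : K) ∈ F := by
    intro F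
    have := natCast_mem F 2
    exact_mod_cast this
  have aux : ∀ ω : K, ω ≠ 0 → (ω ^ 2) ^ p ≠ ω ^ 2 → (4 / ω ^ 2) ^ p ≠ 4 / ω ^ 2 := by
    intro ω hω ht h
    apply ht
    rw [div_pow, h4] at h
    have h5 : (ω ^ 2) ^ p ≠ 0 := pow_ne_zero _ (pow_ne_zero _ hω)
    have h6 : ω ^ 2 ≠ 0 := pow_ne_zero _ hω
    rw [div_eq_div_iff h5 h6] at h
    exact (mul_left_cancel₀ h40 h).symm
  have hA' := aux ω₁ hω₁0 t₁
  have hB' := aux ω₂ hω₂0 t₂
  have hA : 4 / ω₁ ^ 2 ∈ F₁ := F₁.div_mem (m4 F₁) (pow_mem hω₁F 2)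
  have hB : 4 / ω₂ ^ 2 ∈ F₂ := F₂.div_mem (m4 F₂) (pow_mem hω₂F 2)
  have hg : (s / (ω₁ * ω₂)) ^ 2 = 1 - 4 / ω₁ ^ 2 - 4 / ω₂ ^ 2 := by
    field_simp
    linear_combination hs
  have hβ : ∀ u ∈ F₁, ∀ v ∈ F₂, s / (2 * ω₁ * ω₂) - 1 / 2 + 1 / ω₁ ≠ u + v := by
    intro u hu v hv huv
    apply sum_ne hp hp2 hc h₁ h₂ hA hB hA' hB' hg
      (u := 2 * u + 1 - 2 / ω₁) (v := 2 * v)
      (F₁.sub_mem (F₁.add_mem (F₁.mul_mem (m2 F₁) hu) F₁.one_mem) (F₁.div_mem (m2 F₁) hω₁F))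
      (F₂.mul_mem (m2 F₂) hv)
    have h6 : v = s / (2 * ω₁ * ω₂) - 1 / 2 + 1 / ω₁ - u := by linear_combination -huv
    rw [h6]
    field_simp
    ring
  have d₁ := det_M₁ h2 ω₁
  have d₂ := det_M₂ h2 ω₁
  have d₃ := det_M₃ h2 hω₁0 hs
  refine ⟨d₁, d₂, d₃, ?_⟩
  exact inter_aux hp hc h₁ h₂ h2 hω₁F hω₂F hω₁0 hω₂0 m2 hs hβ _ _ _ rfl rfl rfl

end Pool.Agent.Results.MP_5bb224_al.IntersectionProperty
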